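import Pool.Agent.H40.EGD.Targets

namespace Pool.Agent.H82.EGD

open MeasureTheory Set Metric Filter Topology Pool.Agent.H93.BL
open Pool.Agent.H93.EN (av md rf)
open Pool.Agent.H93.EG (InvG T_MAIN)
open Pool.Agent.H40.EGD

theorem ERG (hRIG : T_RIG) (hDIR : T_DIR) (hRRR : T_RRR) (hROT : T_ROT) : T_ERG := by
  intro ι _ P i j hirr X hXm hX
  obtain ⟨W, hWm, hWr, hWX⟩ := hRIG ι P X hXm hX
  have hr := hRRR (P.u i) (P.u j) W (P.norm_u i) (P.norm_u j) (hWr i) (hWr j)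
  have hn : ‖(P.u i / P.u j) ^ 2‖ = 1 := by
    rw [norm_pow, norm_div, P.norm_u, P.norm_u]; norm_num
  have hρ : ∀ m : ℕ, 0 < m → ((P.u i / P.u j) ^ 2) ^ m ≠ 1 := by
    intro m hm
    rw [← pow_mul]
    exact hirr (2 * m) (by positivity)
  rcases hROT ((P.u i / P.u j) ^ 2) W hn hρ hWm hr with h | h
  · right
    intro k
    have h1 := (hDIR ι P k W).2 h
    have h2 : ∀ᵐ z ∂(P.liouville k), z ∈ X k := by
      filter_upwards [h1, hWX k] with z hz1 hz2 using hz2.2 hz1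
    exact h2
  · left
    intro k
    have h1 := (hDIR ι P k Wᶜ).2 h
    have h2 : ∀ᵐ z ∂(P.liouville k), z ∉ X k := by
      filter_upwards [h1, hWX k] with z hz1 hz2 using fun hz => hz1 (hz2.1 hz)
    have h3 := ae_iff.1 h2
    simpa using h3

end Pool.Agent.H82.EGD
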